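import Mathlib

/-!
# `Q_5^λ` does not interlace `Q_6^λ` (MP_84eedd, Q2)

For run-sorted permutations the same-phase interlacing `Q_{n-1}^λ ⪯ Q_n^λ` fails at `n = 6` for
`λ = (1, 1, 1, 30, 1, 1, …)`: both polynomials have two negative roots, but both roots of
`Q_5^λ` lie strictly between the two roots of `Q_6^λ`.
-/

namespace Pool.Agent.Results.MP_84eedd_co.NotInterlacing

open Polynomial

/-- A word is run-sorted if it is the concatenation of nonempty increasing blocks whose first
(that is, smallest) letters increase. For permutations of `1, …, n` these are the words obtained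
from set partitions of `{1, …, n}`. -/
def RunSorted (l : List ℕ) : Prop :=
  ∃ bs : List (List ℕ), bs.flatten = l ∧ (∀ b ∈ bs, b ≠ [] ∧ b.Pairwise (· < ·)) ∧
    (bs.map fun b => b.headD 0).Pairwise (· < ·)

/-- All decompositions of a word into consecutive nonempty blocks. -/
def splits : List ℕ → List (List (List ℕ))
  | [] => [[]]
  | a :: l => (splits l).flatMap fun bs =>
      match bs with
      | [] => [[[a]]]
      | b :: bs' => [[a] :: b :: bs', (a :: b) :: bs']

theorem mem_splits (l : List ℕ) : ∀ bs : List (List ℕ),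
    bs ∈ splits l ↔ bs.flatten = l ∧ ∀ b ∈ bs, b ≠ [] := by
  induction l with
  | nil =>
    intro bs
    simp only [splits, List.mem_singleton]
    constructor
    · rintro rfl; simp
    · rintro ⟨h1, h2⟩
      cases bs with
      | nil => rfl
      | cons b bs =>
        have hb := h2 b (by simp)
        simp only [List.flatten_cons, List.append_eq_nil_iff] at h1
        exact absurd h1.1 hb
  | cons a l ih =>
    intro bs
    simp only [splits, List.mem_flatMap]
    constructor
    · rintro ⟨bs0, h0, h⟩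
      obtain ⟨hf, hn⟩ := (ih bs0).1 h0
      cases bs0 with
      | nil =>
        simp only [List.mem_singleton] at h
        subst h
        simp at hf
        simp [← hf]
      | cons b bs' =>
        simp only [List.mem_cons, List.not_mem_nil, or_false] at h
        rcases h with rfl | rfl
        · refine ⟨by simpa using hf, ?_⟩
          intro c hc
          rcases List.mem_cons.1 hc with rfl | hc
          · simp
          · exact hn c hc
        · refine ⟨by simpa using hf, ?_⟩
          intro c hc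
          rcases List.mem_cons.1 hc with rfl | hc
          · simp
          · exact hn c (List.mem_cons_of_mem _ hc)
    · rintro ⟨hf, hn⟩
      cases bs with
      | nil => simp at hf
      | cons b rest =>
        cases b with
        | nil => exact absurd rfl (hn [] (by simp))
        | cons x b' =>
          simp only [List.flatten_cons, List.cons_append, List.cons.injEq] at hf
          obtain ⟨rfl, hf⟩ := hf
          cases b' with
          | nil =>
            simp only [List.nil_append] at hf
            refine ⟨rest, (ih rest).2 ⟨hf, fun c hc => hn c (List.mem_cons_of_mem _ hc)⟩, ?_⟩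
            cases rest <;> simp
          | cons y b'' =>
            refine ⟨(y :: b'') :: rest, (ih _).2 ⟨by simpa using hf, ?_⟩, by simp⟩
            intro c hc
            rcases List.mem_cons.1 hc with rfl | hc
            · simp
            · exact hn c (List.mem_cons_of_mem _ hc)

theorem runSorted_iff (l : List ℕ) : (∃ bs ∈ splits l, (∀ b ∈ bs, b.Pairwise (· < ·)) ∧
    (bs.map fun b => b.headD 0).Pairwise (· < ·)) ↔ RunSorted l := by
  constructor
  · rintro ⟨bs, h, h1, h2⟩
    obtain ⟨hf, hn⟩ := (mem_splits l bs).1 h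
    exact ⟨bs, hf, fun b hb => ⟨hn b hb, h1 b hb⟩, h2⟩
  · rintro ⟨bs, hf, h1, h2⟩
    exact ⟨bs, (mem_splits l bs).2 ⟨hf, fun b hb => (h1 b hb).1⟩, fun b hb => (h1 b hb).2, h2⟩

instance : DecidablePred RunSorted := fun l => decidable_of_iff _ (runSorted_iff l)

/-- `RSP(n)`: the run-sorted permutations of `1, …, n`, in one-line notation. -/
def RSP (n : ℕ) : Finset (List ℕ) :=
  ((List.range' 1 n).permutations'.filter fun l => RunSorted l).toFinset

theorem mem_RSP (n : ℕ) (l : List ℕ) :
    l ∈ RSP n ↔ l.Perm (List.range' 1 n) ∧ RunSorted l := by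
  simp [RSP, List.mem_permutations']

/-- The descent set `{k : π(k) > π(k+1)}` (positions counted from 1). -/
def DES (l : List ℕ) : Finset ℕ :=
  (Finset.Ico 1 l.length).filter fun k => l.getD k 0 < l.getD (k - 1) 0

/-- The polynomial `Q_n(λ_1 t, …, λ_n t)` in the variable `t = X`. -/
noncomputable def Q (n : ℕ) (lam : ℕ → ℝ) : ℝ[X] :=
  ∑ l ∈ RSP n, ∏ j ∈ DES l, (C (lam j) * X)

/-- `f ⪯ g`: all roots of `f` and `g` are real and non-positive, and, listed with multiplicity in
weakly decreasing order, `… ≤ f_2 ≤ g_2 ≤ f_1 ≤ g_1 ≤ 0`. -/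
def Interlaces (f g : ℝ[X]) : Prop :=
  ∃ F G : List ℝ, (F : Multiset ℝ) = f.roots ∧ (G : Multiset ℝ) = g.roots ∧
    F.length = f.natDegree ∧ G.length = g.natDegree ∧
    F.Pairwise (· ≥ ·) ∧ G.Pairwise (· ≥ ·) ∧ (∀ x ∈ F, x ≤ 0) ∧ (∀ x ∈ G, x ≤ 0) ∧
    (∀ (i : ℕ) (h1 : i < F.length) (h2 : i < G.length), F[i] ≤ G[i]) ∧
    (∀ (i : ℕ) (h1 : i < F.length) (h2 : i + 1 < G.length), G[i + 1] ≤ F[i])

/-- The weights used: `λ_4 = 30`, all others `1`. -/
def wN (j : ℕ) : ℕ := if j = 4 then 30 else 1

theorem Q_eq (n : ℕ) : Q n (fun j => (wN j : ℝ)) =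
    (((List.range' 1 n).permutations'.filter fun l => RunSorted l).map
      fun l => C ((∏ j ∈ DES l, wN j : ℕ) : ℝ) * X ^ (DES l).card).sum := by
  have hnd : ((List.range' 1 n).permutations'.filter fun l => RunSorted l).Nodup := by
    apply List.Nodup.filter
    exact (List.permutations_perm_permutations' _).nodup_iff.1
      (List.nodup_permutations _ List.nodup_range')
  unfold Q RSP
  rw [List.sum_toFinset _ hnd]
  congr 1
  apply List.map_congr_left
  intro l _
  rw [Finset.prod_mul_distrib, Finset.prod_const]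
  push_cast
  rw [← map_prod]

theorem coeff_Q (n k : ℕ) : (Q n (fun j => (wN j : ℝ))).coeff k =
    (((((List.range' 1 n).permutations'.filter fun l => RunSorted l).map
      fun l => if k = (DES l).card then ∏ j ∈ DES l, wN j else 0).sum : ℕ) : ℝ) := by
  rw [Q_eq]
  generalize ((List.range' 1 n).permutations'.filter fun l => RunSorted l) = L
  induction L with
  | nil => simp
  | cons a L ih =>
    simp only [List.map_cons, List.sum_cons, coeff_add, ih, Nat.cast_add, coeff_C_mul, coeff_X_pow]
    congr 1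
    split_ifs <;> simp

theorem c5 : ((((List.range' 1 5).permutations'.filter fun l => RunSorted l).map
      fun l => if 0 = (DES l).card then ∏ j ∈ DES l, wN j else 0).sum = 1) ∧
    ((((List.range' 1 5).permutations'.filter fun l => RunSorted l).map
      fun l => if 1 = (DES l).card then ∏ j ∈ DES l, wN j else 0).sum = 98) ∧
    ((((List.range' 1 5).permutations'.filter fun l => RunSorted l).map
      fun l => if 2 = (DES l).card then ∏ j ∈ DES l, wN j else 0).sum = 90) ∧
    (∀ l ∈ ((List.range' 1 5).permutations'.filter fun l => RunSorted l), (DES l).card ≤ 2) := by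
  decide +kernel

theorem c6 : ((((List.range' 1 6).permutations'.filter fun l => RunSorted l).map
      fun l => if 0 = (DES l).card then ∏ j ∈ DES l, wN j else 0).sum = 1) ∧
    ((((List.range' 1 6).permutations'.filter fun l => RunSorted l).map
      fun l => if 1 = (DES l).card then ∏ j ∈ DES l, wN j else 0).sum = 287) ∧
    ((((List.range' 1 6).permutations'.filter fun l => RunSorted l).map
      fun l => if 2 = (DES l).card then ∏ j ∈ DES l, wN j else 0).sum = 257) ∧
    (∀ l ∈ ((List.range' 1 6).permutations'.filter fun l => RunSorted l), (DES l).card ≤ 2) := by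
  decide +kernel

theorem coeff_big (L : List (List ℕ)) (hL : ∀ l ∈ L, (DES l).card ≤ 2) (k : ℕ) (hk : 3 ≤ k) :
    (L.map fun l => if k = (DES l).card then ∏ j ∈ DES l, wN j else 0).sum = 0 := by
  induction L with
  | nil => simp
  | cons a L ih =>
    simp only [List.map_cons, List.sum_cons]
    rw [ih (fun l hl => hL l (List.mem_cons_of_mem _ hl)), if_neg]
    have := hL a (by simp)
    omega

theorem Q5 : Q 5 (fun j => (wN j : ℝ)) = C 90 * X ^ 2 + C 98 * X + C 1 := by
  ext k
  rw [coeff_Q]
  obtain ⟨h0, h1, h2, h3⟩ := c5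
  match k with
  | 0 => rw [h0]; simp
  | 1 => rw [h1]; simp [coeff_X, coeff_one]
  | 2 => rw [h2]; simp [coeff_X, coeff_one]
  | k + 3 =>
    rw [coeff_big _ h3 (k + 3) (by omega)]
    simp [coeff_X, coeff_one, coeff_C, coeff_X_pow]

theorem Q6 : Q 6 (fun j => (wN j : ℝ)) = C 257 * X ^ 2 + C 287 * X + C 1 := by
  ext k
  rw [coeff_Q]
  obtain ⟨h0, h1, h2, h3⟩ := c6
  match k with
  | 0 => rw [h0]; simp
  | 1 => rw [h1]; simp [coeff_X, coeff_one]
  | 2 => rw [h2]; simp [coeff_X, coeff_one]
  | k + 3 =>
    rw [coeff_big _ h3 (k + 3) (by omega)]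
    simp [coeff_X, coeff_one, coeff_C, coeff_X_pow]

/-- **Q2 is false**: for `λ = (1, 1, 1, 30, 1, 1, …)` the polynomials `Q_5^λ` and `Q_6^λ` have
roots `a₁ > a₂` and `b₁ > b₂` with `b₂ < a₂ < a₁ < b₁ < 0`; in particular `Q_5^λ ⪯ Q_6^λ`
fails. -/
theorem result : ∃ lam : ℕ → ℝ, (∀ j, 0 < lam j) ∧
    (∃ a₁ a₂ b₁ b₂ : ℝ, (Q 5 lam).natDegree = 2 ∧ (Q 6 lam).natDegree = 2 ∧
      (Q 5 lam).roots = {a₁, a₂} ∧ (Q 6 lam).roots = {b₁, b₂} ∧
      b₂ < a₂ ∧ a₂ < a₁ ∧ a₁ < b₁ ∧ b₁ < 0) ∧
    ¬ Interlaces (Q 5 lam) (Q 6 lam) := by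
  refine ⟨fun j => (wN j : ℝ),
    fun j => Nat.cast_pos.2 (show 0 < wN j by unfold wN; split_ifs <;> norm_num), ?_⟩
  rw [Q5, Q6]
  have hs : (√9244 : ℝ) ^ 2 = 9244 := Real.sq_sqrt (by norm_num)
  have ht : (√81341 : ℝ) ^ 2 = 81341 := Real.sq_sqrt (by norm_num)
  have hs1 : (96 : ℝ) < √9244 := by
    rw [Real.lt_sqrt (by norm_num)]; norm_num
  have hs2 : (√9244 : ℝ) < 97 := by
    rw [Real.sqrt_lt' (by norm_num)]; norm_num
  have ht1 : (285 : ℝ) < √81341 := by
    rw [Real.lt_sqrt (by norm_num)]; norm_num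
  have ht2 : (√81341 : ℝ) < 286 := by
    rw [Real.sqrt_lt' (by norm_num)]; norm_num
  set s : ℝ := √9244
  set t : ℝ := √81341
  have hf : (C 90 * X ^ 2 + C 98 * X + C 1 : ℝ[X]).roots = {(-98 + s) / 180, (-98 - s) / 180} := by
    rw [Polynomial.roots_quadratic_eq_pair_iff_of_ne_zero (by norm_num)]
    constructor
    · ring
    · nlinarith [hs]
  have hg : (C 257 * X ^ 2 + C 287 * X + C 1 : ℝ[X]).roots =
      {(-287 + t) / 514, (-287 - t) / 514} := by
    rw [Polynomial.roots_quadratic_eq_pair_iff_of_ne_zero (by norm_num)]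
    constructor
    · ring
    · nlinarith [ht]
  have hdf : (C 90 * X ^ 2 + C 98 * X + C 1 : ℝ[X]).natDegree = 2 := by
    exact natDegree_quadratic (by norm_num)
  have hdg : (C 257 * X ^ 2 + C 287 * X + C 1 : ℝ[X]).natDegree = 2 := by
    exact natDegree_quadratic (by norm_num)
  have e1 : (-287 - t) / 514 < (-98 - s) / 180 := by linarith
  have e2 : (-98 - s) / 180 < (-98 + s) / 180 := by linarith
  have e3 : (-98 + s) / 180 < (-287 + t) / 514 := by linarith
  have e4 : (-287 + t) / 514 < 0 := by linarith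
  refine ⟨⟨_, _, _, _, hdf, hdg, hf, hg, e1, e2, e3, e4⟩, ?_⟩
  rintro ⟨F, G, hF, hG, -, -, hFs, hGs, -, -, h1, -⟩
  rw [hf] at hF
  rw [hg] at hG
  have hF' : F = [(-98 + s) / 180, (-98 - s) / 180] := by
    have hp : F.Perm [(-98 + s) / 180, (-98 - s) / 180] := Multiset.coe_eq_coe.1 hF
    refine hp.eq_of_pairwise (fun a b _ _ h1 h2 => le_antisymm h2 h1) hFs ?_
    simp only [List.pairwise_cons, List.mem_singleton, forall_eq, List.not_mem_nil,
      IsEmpty.forall_iff, implies_true, List.Pairwise.nil, and_true]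
    exact e2.le
  have hG' : G = [(-287 + t) / 514, (-287 - t) / 514] := by
    have hp : G.Perm [(-287 + t) / 514, (-287 - t) / 514] := Multiset.coe_eq_coe.1 hG
    refine hp.eq_of_pairwise (fun a b _ _ h1 h2 => le_antisymm h2 h1) hGs ?_
    simp only [List.pairwise_cons, List.mem_singleton, forall_eq, List.not_mem_nil,
      IsEmpty.forall_iff, implies_true, List.Pairwise.nil, and_true]
    linarith
  subst hF' hG'
  have := h1 1 (by simp) (by simp)
  simp only [List.getElem_cons_succ, List.getElem_cons_zero] at this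
  linarith

end Pool.Agent.Results.MP_84eedd_co.NotInterlacing
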